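import Pool.Agent.W65.CS.R2
import Pool.Agent.H510R2.Div

/-!
# Quadruples for which `2^(x+y) + 2^(z+w) + 1` is divisible by a given prime

For a prime `q` for which the order of `2` is `m` at most `n ^ ε (√n + n / m)` of the
representations `n = x² + y² + z² + w²` have a value divisible by `q`.
-/

set_option autoImplicit false
open Finset

namespace Pool.Agent.Q249.CN

/-- numbers up to `B` in one residue class modulo `m` -/
lemma class_card (B m : ℕ) (T : Finset ℕ) (hT : ∀ b ∈ T, b ≤ B)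
    (hc : ∀ b ∈ T, ∀ b' ∈ T, b % m = b' % m) : T.card ≤ B / m + 1 := by
  classical
  have : T.card ≤ (range (B / m + 1)).card := by
    apply Finset.card_le_card_of_injOn (fun b => b / m)
    · intro b hb
      rw [mem_coe, mem_range]
      exact Nat.lt_succ_of_le (Nat.div_le_div_right (hT b hb))
    · intro b hb b' hb' h
      have h1 := hc b hb b' hb'
      simp only at h
      rw [← Nat.div_add_mod b m, ← Nat.div_add_mod b' m, h, h1]
  simpa using this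

/-- pairs of exponents -/
lemma pair_card (B q : ℕ) (hq : q.Prime) (hm : 0 < orderOf (2 : ZMod q)) (T : Finset (ℕ × ℕ))
    (hT : ∀ p ∈ T, p.1 ≤ B ∧ p.2 ≤ B ∧ q ∣ 2 ^ p.1 + 2 ^ p.2 + 1) :
    T.card ≤ (B / orderOf (2 : ZMod q) + 1) * (B + 1) := by
  classical
  have : Fact q.Prime := ⟨hq⟩
  have h1 : T.card ≤ (B / orderOf (2 : ZMod q) + 1) * (T.image Prod.fst).card := by
    apply Finset.card_le_mul_card_image
    intro a _
    have h2 : (T.filter (fun p => p.1 = a)).card = ((T.filter (fun p => p.1 = a)).image Prod.snd).card := by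
      rw [Finset.card_image_of_injOn]
      intro p hp p' hp' h
      rw [mem_coe, mem_filter] at hp hp'
      exact Prod.ext (hp.2.trans hp'.2.symm) h
    rw [h2]
    apply class_card B _
    · intro b hb
      rw [mem_image] at hb
      obtain ⟨p, hp, rfl⟩ := hb
      exact (hT p (mem_filter.1 hp).1).2.1
    · intro b hb b' hb'
      rw [mem_image] at hb hb'
      obtain ⟨p, hp, rfl⟩ := hb
      obtain ⟨p', hp', rfl⟩ := hb'
      rw [mem_filter] at hp hp'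
      have e1 := (ZMod.natCast_eq_zero_iff _ _).2 (hT p hp.1).2.2
      have e2 := (ZMod.natCast_eq_zero_iff _ _).2 (hT p' hp'.1).2.2
      push_cast at e1 e2
      rw [hp.2] at e1
      rw [hp'.2] at e2
      have e3 : (2 : ZMod q) ^ p.2 = 2 ^ p'.2 := by linear_combination e1 - e2
      have hu : IsUnit (2 : ZMod q) := by
        rw [isUnit_iff_ne_zero]
        intro h
        rw [h, orderOf_zero] at hm
        exact lt_irrefl _ hm
      obtain ⟨u, hu⟩ := hu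
      rw [← hu] at e3 ⊢
      rw [← Units.val_pow_eq_pow_val, ← Units.val_pow_eq_pow_val, Units.val_inj, pow_eq_pow_iff_modEq] at e3
      rw [orderOf_units]
      exact e3
  refine h1.trans (Nat.mul_le_mul_left _ ?_)
  have : (T.image Prod.fst).card ≤ (range (B + 1)).card := by
    apply Finset.card_le_card
    intro a ha
    rw [mem_image] at ha
    obtain ⟨p, hp, rfl⟩ := ha
    rw [mem_range]
    have := (hT p hp).1
    omega
  simpa using this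

/-- one fibre -/
lemma fib_card (n a b : ℕ) (D : ℝ) (hD : 1 ≤ D) (hdiv : ∀ M : ℕ, 1 ≤ M → M ≤ 2 * n → (M.divisors.card : ℝ) ≤ D)
    (T : Finset (ℕ × ℕ × ℕ × ℕ))
    (hT : ∀ t ∈ T, n = t.1 ^ 2 + t.2.1 ^ 2 + t.2.2.1 ^ 2 + t.2.2.2 ^ 2 ∧ t.1 + t.2.1 = a ∧ t.2.2.1 + t.2.2.2 = b) :
    (T.card : ℝ) ≤ 8 * D ^ 2 := by
  classical
  by_cases hne : T.Nonempty
  · obtain ⟨t0, ht0⟩ := hne
    obtain ⟨g1, g2, g3⟩ := hT t0 ht0
    have hk : ∀ t ∈ T, ((t.1 : ℤ) - t.2.1) ^ 2 + ((t.2.2.1 : ℤ) - t.2.2.2) ^ 2 = 2 * n - a ^ 2 - b ^ 2 := by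
      intro t ht
      obtain ⟨h1, h2, h3⟩ := hT t ht
      rw [h1, ← h2, ← h3]
      push_cast
      ring
    obtain ⟨M, hM⟩ : ∃ M : ℕ, (M : ℤ) = 2 * n - a ^ 2 - b ^ 2 := by
      refine ⟨(2 * n - a ^ 2 - b ^ 2 : ℤ).toNat, ?_⟩
      rw [Int.toNat_of_nonneg]
      rw [← hk t0 ht0]
      positivity
    have hinj : ∀ t ∈ T, ∀ t' ∈ T, ((t.1 : ℤ) - t.2.1) = ((t'.1 : ℤ) - t'.2.1) →
        ((t.2.2.1 : ℤ) - t.2.2.2) = ((t'.2.2.1 : ℤ) - t'.2.2.2) → t = t' := by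
      rintro ⟨x, y, z, w⟩ ht ⟨x', y', z', w'⟩ ht' e1 e2
      obtain ⟨_, h2, h3⟩ := hT _ ht
      obtain ⟨_, h2', h3'⟩ := hT _ ht'
      simp only at h2 h3 h2' h3' e1 e2
      simp only [Prod.mk.injEq]
      omega
    rcases Nat.eq_zero_or_pos M with h0 | h0
    · have : T.card ≤ 1 := by
        rw [Finset.card_le_one]
        intro t ht t' ht'
        have k1 := hk t ht
        have k2 := hk t' ht'
        rw [← hM, h0] at k1 k2
        push_cast at k1 k2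
        have z1 : ((t.1 : ℤ) - t.2.1) = 0 := by
          have := sq_nonneg ((t.1 : ℤ) - t.2.1)
          have := sq_nonneg ((t.2.2.1 : ℤ) - t.2.2.2)
          exact pow_eq_zero_iff two_ne_zero |>.1 (by linarith)
        have z2 : ((t.2.2.1 : ℤ) - t.2.2.2) = 0 := by
          have := sq_nonneg ((t.1 : ℤ) - t.2.1)
          have := sq_nonneg ((t.2.2.1 : ℤ) - t.2.2.2)
          exact pow_eq_zero_iff two_ne_zero |>.1 (by linarith)
        have z3 : ((t'.1 : ℤ) - t'.2.1) = 0 := by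
          have := sq_nonneg ((t'.1 : ℤ) - t'.2.1)
          have := sq_nonneg ((t'.2.2.1 : ℤ) - t'.2.2.2)
          exact pow_eq_zero_iff two_ne_zero |>.1 (by linarith)
        have z4 : ((t'.2.2.1 : ℤ) - t'.2.2.2) = 0 := by
          have := sq_nonneg ((t'.1 : ℤ) - t'.2.1)
          have := sq_nonneg ((t'.2.2.1 : ℤ) - t'.2.2.2)
          exact pow_eq_zero_iff two_ne_zero |>.1 (by linarith)
        exact hinj t ht t' ht' (z1.trans z3.symm) (z2.trans z4.symm)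
      have : (T.card : ℝ) ≤ 1 := by exact_mod_cast this
      nlinarith
    · have hc : T.card ≤ (Pool.Agent.W65.CS.R2 M).card := by
        apply Finset.card_le_card_of_injOn (fun t => ((t.1 : ℤ) - t.2.1, (t.2.2.1 : ℤ) - t.2.2.2))
        · intro t ht
          rw [mem_coe, Pool.Agent.W65.CS.mem_R2, hM]
          exact hk t ht
        · intro t ht t' ht' h
          simp only [Prod.mk.injEq] at h
          exact hinj t ht t' ht' h.1 h.2
      have hM2 : M ≤ 2 * n := by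
        have : (M : ℤ) ≤ 2 * n := by
          rw [hM]
          have := sq_nonneg (a : ℤ)
          have := sq_nonneg (b : ℤ)
          linarith
        exact_mod_cast this
      have h1 := hc.trans (Pool.Agent.W65.CS.R2_card M h0)
      have h2 : (T.card : ℝ) ≤ 8 * (M.divisors.card : ℝ) ^ 2 := by exact_mod_cast h1
      have h3 := hdiv M h0 hM2
      have h4 : (M.divisors.card : ℝ) ^ 2 ≤ D ^ 2 := by gcongr
      linarith
  · rw [not_nonempty_iff_eq_empty.1 hne]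
    simp only [card_empty, Nat.cast_zero]
    positivity

lemma kill_nat (n q : ℕ) (hq : q.Prime) (hm : 0 < orderOf (2 : ZMod q)) (D : ℝ) (hD : 1 ≤ D)
    (hdiv : ∀ M : ℕ, 1 ≤ M → M ≤ 2 * n → (M.divisors.card : ℝ) ≤ D)
    (T : Finset (ℕ × ℕ × ℕ × ℕ))
    (hT : ∀ x y z w : ℕ, (x, y, z, w) ∈ T → n = x ^ 2 + y ^ 2 + z ^ 2 + w ^ 2 ∧ q ∣ 2 ^ (x + y) + 2 ^ (z + w) + 1) :
    (T.card : ℝ) ≤ 8 * D ^ 2 *
      (((Nat.sqrt (2 * n) / orderOf (2 : ZMod q) + 1 : ℕ) : ℝ) * ((Nat.sqrt (2 * n) + 1 : ℕ) : ℝ)) := by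
  classical
  let f : ℕ × ℕ × ℕ × ℕ → ℕ × ℕ := fun t => (t.1 + t.2.1, t.2.2.1 + t.2.2.2)
  have h1 : T.card ≤ ⌊8 * D ^ 2⌋₊ * (T.image f).card := by
    apply Finset.card_le_mul_card_image
    intro p _
    apply Nat.le_floor
    apply fib_card n p.1 p.2 D hD hdiv
    intro t ht
    rw [mem_filter] at ht
    refine ⟨(hT t.1 t.2.1 t.2.2.1 t.2.2.2 ht.1).1, ?_, ?_⟩
    · rw [← ht.2]
    · rw [← ht.2]
  have h2 : (T.image f).card ≤ (Nat.sqrt (2 * n) / orderOf (2 : ZMod q) + 1) * (Nat.sqrt (2 * n) + 1) := by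
    apply pair_card _ q hq hm
    intro p hp
    rw [mem_image] at hp
    obtain ⟨t, ht, rfl⟩ := hp
    obtain ⟨g1, g2⟩ := hT t.1 t.2.1 t.2.2.1 t.2.2.2 ht
    refine ⟨?_, ?_, g2⟩
    · show t.1 + t.2.1 ≤ _
      rw [Nat.le_sqrt']
      have := sq_nonneg ((t.1 : ℤ) - t.2.1)
      zify
      rw [g1]
      push_cast
      nlinarith [sq_nonneg ((t.2.2.1 : ℤ)), sq_nonneg ((t.2.2.2 : ℤ))]
    · show t.2.2.1 + t.2.2.2 ≤ _
      rw [Nat.le_sqrt']
      have := sq_nonneg ((t.2.2.1 : ℤ) - t.2.2.2)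
      zify
      rw [g1]
      push_cast
      nlinarith [sq_nonneg ((t.1 : ℤ)), sq_nonneg ((t.2.1 : ℤ))]
  calc (T.card : ℝ) ≤ ((⌊8 * D ^ 2⌋₊ * (T.image f).card : ℕ) : ℝ) := by exact_mod_cast h1
    _ = (⌊8 * D ^ 2⌋₊ : ℝ) * ((T.image f).card : ℝ) := by push_cast; ring
    _ ≤ (8 * D ^ 2) * (((Nat.sqrt (2 * n) / orderOf (2 : ZMod q) + 1) * (Nat.sqrt (2 * n) + 1) : ℕ) : ℝ) := by
        apply mul_le_mul (Nat.floor_le (by positivity)) (by exact_mod_cast h2) (by positivity) (by positivity)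
    _ = _ := by push_cast; ring

/-- the number of representations killed by one prime -/
theorem kill (ε : ℝ) (hε : 0 < ε) : ∃ C : ℝ, 0 < C ∧ ∀ n q : ℕ, 1 ≤ n → q.Prime →
    0 < orderOf (2 : ZMod q) → ∀ T : Finset (ℕ × ℕ × ℕ × ℕ),
    (∀ x y z w : ℕ, (x, y, z, w) ∈ T → n = x ^ 2 + y ^ 2 + z ^ 2 + w ^ 2 ∧ q ∣ 2 ^ (x + y) + 2 ^ (z + w) + 1) →
    (T.card : ℝ) ≤ C * (n : ℝ) ^ ε * ((n : ℝ) ^ (1 / 2 : ℝ) + n / orderOf (2 : ZMod q)) := by
  obtain ⟨C, hC, hdiv⟩ := Pool.Agent.H510R2.divisor_bound (ε / 2) (by positivity)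
  set C' : ℝ := max 1 (C * 2 ^ (ε / 2)) with hC'
  have hC1 : 1 ≤ C' := le_max_left _ _
  refine ⟨8 * C' ^ 2 * 6, by positivity, ?_⟩
  intro n q hn hq hm T hT
  have hn1 : (1 : ℝ) ≤ n := by exact_mod_cast hn
  have hn0 : (0 : ℝ) < n := by linarith
  have hD1 : 1 ≤ C' * (n : ℝ) ^ (ε / 2) := by
    have := Real.one_le_rpow hn1 (by positivity : 0 ≤ ε / 2)
    nlinarith
  have hdiv' : ∀ M : ℕ, 1 ≤ M → M ≤ 2 * n → (M.divisors.card : ℝ) ≤ C' * (n : ℝ) ^ (ε / 2) := by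
    intro M hM hM2
    have hM2' : (M : ℝ) ≤ 2 * n := by exact_mod_cast hM2
    calc (M.divisors.card : ℝ) ≤ C * (M : ℝ) ^ (ε / 2) := hdiv M hM
      _ ≤ C * (2 * n : ℝ) ^ (ε / 2) := by gcongr
      _ = (C * 2 ^ (ε / 2)) * (n : ℝ) ^ (ε / 2) := by
          rw [Real.mul_rpow (by norm_num) hn0.le]; ring
      _ ≤ C' * (n : ℝ) ^ (ε / 2) := by
          gcongr
          exact le_max_right _ _
  have h1 := kill_nat n q hq hm _ hD1 hdiv' T hT
  set m := orderOf (2 : ZMod q) with hmdef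
  have hm0 : (0 : ℝ) < m := by exact_mod_cast hm
  have hs : ((Nat.sqrt (2 * n) : ℕ) : ℝ) ≤ 2 * (n : ℝ) ^ (1 / 2 : ℝ) := by
    have h2 : ((Nat.sqrt (2 * n) : ℕ) : ℝ) ≤ Real.sqrt (((2 * n : ℕ)) : ℝ) := Real.nat_sqrt_le_real_sqrt
    refine h2.trans ?_
    push_cast
    rw [← Real.sqrt_eq_rpow]
    rw [show (2 : ℝ) * Real.sqrt n = Real.sqrt (4 * n) by
      rw [Real.sqrt_mul (by norm_num), show (4 : ℝ) = 2 ^ 2 by norm_num, Real.sqrt_sq (by norm_num)]]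
    apply Real.sqrt_le_sqrt
    linarith
  have hr1 : (1 : ℝ) ≤ (n : ℝ) ^ (1 / 2 : ℝ) := Real.one_le_rpow hn1 (by norm_num)
  have hrr : (n : ℝ) ^ (1 / 2 : ℝ) * (n : ℝ) ^ (1 / 2 : ℝ) = n := by
    rw [← Real.rpow_add hn0]; norm_num
  have hA : (((Nat.sqrt (2 * n) / m + 1 : ℕ)) : ℝ) ≤ 2 * (n : ℝ) ^ (1 / 2 : ℝ) / m + 1 := by
    push_cast
    have : ((Nat.sqrt (2 * n) / m : ℕ) : ℝ) ≤ (Nat.sqrt (2 * n) : ℝ) / m := Nat.cast_div_le
    have h3 : (Nat.sqrt (2 * n) : ℝ) / m ≤ 2 * (n : ℝ) ^ (1 / 2 : ℝ) / m := by gcongr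
    linarith
  have hB : ((Nat.sqrt (2 * n) + 1 : ℕ) : ℝ) ≤ 3 * (n : ℝ) ^ (1 / 2 : ℝ) := by
    push_cast
    linarith
  have hAB : (((Nat.sqrt (2 * n) / m + 1 : ℕ)) : ℝ) * ((Nat.sqrt (2 * n) + 1 : ℕ) : ℝ) ≤
      6 * ((n : ℝ) ^ (1 / 2 : ℝ) + n / m) := by
    calc (((Nat.sqrt (2 * n) / m + 1 : ℕ)) : ℝ) * ((Nat.sqrt (2 * n) + 1 : ℕ) : ℝ)
        ≤ (2 * (n : ℝ) ^ (1 / 2 : ℝ) / m + 1) * (3 * (n : ℝ) ^ (1 / 2 : ℝ)) :=
          mul_le_mul hA hB (by positivity) (by positivity)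
      _ = 6 * (((n : ℝ) ^ (1 / 2 : ℝ) * (n : ℝ) ^ (1 / 2 : ℝ)) / m) + 3 * (n : ℝ) ^ (1 / 2 : ℝ) := by
          field_simp
          ring
      _ = 6 * (n / m) + 3 * (n : ℝ) ^ (1 / 2 : ℝ) := by rw [hrr]
      _ ≤ _ := by nlinarith
  have hpow : (C' * (n : ℝ) ^ (ε / 2)) ^ 2 = C' ^ 2 * (n : ℝ) ^ ε := by
    rw [mul_pow, ← Real.rpow_natCast, ← Real.rpow_natCast, ← Real.rpow_mul hn0.le]
    norm_num
  calc (T.card : ℝ) ≤ _ := h1
    _ ≤ 8 * (C' * (n : ℝ) ^ (ε / 2)) ^ 2 * (6 * ((n : ℝ) ^ (1 / 2 : ℝ) + n / m)) := by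
        apply mul_le_mul_of_nonneg_left hAB (by positivity)
    _ = _ := by rw [hpow]; ring

end Pool.Agent.Q249.CN
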