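import Pool.Agent.Q249.CN.Kill
import Pool.Agent.TH696.FA.Final

/-!
# The values `2^(x+y) + 2^(z+w) + 1` are not covered by few primes
-/

set_option autoImplicit false
open Finset

namespace Pool.Agent.Q249.CN

/-- the set `Q` of primes of large order is harmless -/
lemma killQ (n : ℕ) (hn : 1 ≤ n) (C ε θ : ℝ) (hC : 0 < C) (hθ2 : θ ≤ 1 / 2)
    (hkill : ∀ q : ℕ, q.Prime →
    0 < orderOf (2 : ZMod q) → ∀ T : Finset (ℕ × ℕ × ℕ × ℕ),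
    (∀ x y z w : ℕ, (x, y, z, w) ∈ T → n = x ^ 2 + y ^ 2 + z ^ 2 + w ^ 2 ∧ q ∣ 2 ^ (x + y) + 2 ^ (z + w) + 1) →
    (T.card : ℝ) ≤ C * (n : ℝ) ^ ε * ((n : ℝ) ^ (1 / 2 : ℝ) + n / orderOf (2 : ZMod q)))
    (Q : Finset ℕ) (hQ : ∀ q ∈ Q, q.Prime ∧ (n : ℝ) ^ θ ≤ orderOf (2 : ZMod q))
    (S : Finset (ℕ × ℕ × ℕ × ℕ))
    (hS : ∀ x y z w : ℕ, (x, y, z, w) ∈ S → n = x ^ 2 + y ^ 2 + z ^ 2 + w ^ 2 ∧
      ∃ q ∈ Q, q ∣ 2 ^ (x + y) + 2 ^ (z + w) + 1) :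
    (S.card : ℝ) ≤ Q.card * (2 * C * (n : ℝ) ^ (1 - θ + ε)) := by
  classical
  have hn1 : (1 : ℝ) ≤ n := by exact_mod_cast hn
  have hn0 : (0 : ℝ) < n := by linarith
  let F : ℕ → Finset (ℕ × ℕ × ℕ × ℕ) := fun q => S.filter (fun t => q ∣ 2 ^ (t.1 + t.2.1) + 2 ^ (t.2.2.1 + t.2.2.2) + 1)
  have h1 : S ⊆ Q.biUnion F := by
    rintro ⟨x, y, z, w⟩ ht
    obtain ⟨_, q, hq, hd⟩ := hS x y z w ht
    rw [mem_biUnion]
    exact ⟨q, hq, mem_filter.2 ⟨ht, hd⟩⟩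
  have h2 : S.card ≤ ∑ q ∈ Q, (F q).card := (Finset.card_le_card h1).trans Finset.card_biUnion_le
  have h3 : ∀ q ∈ Q, ((F q).card : ℝ) ≤ 2 * C * (n : ℝ) ^ (1 - θ + ε) := by
    intro q hq
    obtain ⟨hqp, hqm⟩ := hQ q hq
    have hpos : 0 < (n : ℝ) ^ θ := Real.rpow_pos_of_pos hn0 _
    have hm0 : 0 < orderOf (2 : ZMod q) := by
      have : (0 : ℝ) < orderOf (2 : ZMod q) := lt_of_lt_of_le hpos hqm
      exact_mod_cast this
    have h4 := hkill q hqp hm0 (F q) (by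
      intro x y z w ht
      rw [mem_filter] at ht
      exact ⟨(hS x y z w ht.1).1, ht.2⟩)
    refine h4.trans ?_
    have h5 : (n : ℝ) / orderOf (2 : ZMod q) ≤ (n : ℝ) ^ (1 - θ) := by
      rw [Real.rpow_sub hn0, Real.rpow_one]
      gcongr
    have h6 : (n : ℝ) ^ (1 / 2 : ℝ) ≤ (n : ℝ) ^ (1 - θ) := Real.rpow_le_rpow_of_exponent_le hn1 (by linarith)
    calc C * (n : ℝ) ^ ε * ((n : ℝ) ^ (1 / 2 : ℝ) + n / orderOf (2 : ZMod q))
        ≤ C * (n : ℝ) ^ ε * ((n : ℝ) ^ (1 - θ) + (n : ℝ) ^ (1 - θ)) := by gcongr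
      _ = 2 * C * ((n : ℝ) ^ (1 - θ) * (n : ℝ) ^ ε) := by ring
      _ = _ := by rw [← Real.rpow_add hn0]
  calc (S.card : ℝ) ≤ ((∑ q ∈ Q, (F q).card : ℕ) : ℝ) := by exact_mod_cast h2
    _ = ∑ q ∈ Q, ((F q).card : ℝ) := by push_cast; rfl
    _ ≤ ∑ q ∈ Q, 2 * C * (n : ℝ) ^ (1 - θ + ε) := Finset.sum_le_sum h3
    _ = _ := by rw [Finset.sum_const, nsmul_eq_mul]

/-- the statement for `k` arbitrary primes -/
def Good (k : ℕ) : Prop := ∀ ε : ℝ, 0 < ε → ∃ δ : ℝ, 0 < δ ∧ ∃ n0 : ℕ, ∀ (n K : ℕ), n0 ≤ n → Odd n → 0 < K →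
    (K : ℝ) ≤ (n : ℝ) ^ δ → ∀ (P Q : Finset ℕ) (θ : ℝ), P.card ≤ k → (∀ p ∈ P, p.Prime) → 0 ≤ θ → θ ≤ 1 / 2 →
    (Q.card : ℝ) ≤ (n : ℝ) ^ (θ - ε) → (∀ q ∈ Q, q.Prime ∧ (n : ℝ) ^ θ ≤ orderOf (2 : ZMod q)) →
    ∃ S : Finset (ℕ × ℕ × ℕ × ℕ), (n : ℝ) ^ (1 - ε) ≤ (S.card : ℝ) ∧
      ∀ x y z w : ℕ, (x, y, z, w) ∈ S → n = x ^ 2 + y ^ 2 + z ^ 2 + w ^ 2 ∧
        Nat.Coprime (2 ^ (x + y) + 2 ^ (z + w) + 1) (2 * (2 ^ K - 1)) ∧
        (∀ p ∈ P, ¬ p ∣ 2 ^ (x + y) + 2 ^ (z + w) + 1) ∧ (∀ q ∈ Q, ¬ q ∣ 2 ^ (x + y) + 2 ^ (z + w) + 1)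

/-- all primes of `P` have large order -/
lemma core (k : ℕ) (ε γ : ℝ) (hε : 0 < ε) (hγ : 0 < γ) (hγ2 : γ ≤ 1 / 2) :
    ∃ δ : ℝ, 0 < δ ∧ ∃ n0 : ℕ, ∀ (n K : ℕ), n0 ≤ n → Odd n → 0 < K →
    (K : ℝ) ≤ (n : ℝ) ^ δ → ∀ (P Q : Finset ℕ) (θ : ℝ), P.card ≤ k →
    (∀ p ∈ P, p.Prime ∧ (n : ℝ) ^ γ ≤ orderOf (2 : ZMod p)) → 0 ≤ θ → θ ≤ 1 / 2 →
    (Q.card : ℝ) ≤ (n : ℝ) ^ (θ - ε) → (∀ q ∈ Q, q.Prime ∧ (n : ℝ) ^ θ ≤ orderOf (2 : ZMod q)) →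
    ∃ S : Finset (ℕ × ℕ × ℕ × ℕ), (n : ℝ) ^ (1 - ε) ≤ (S.card : ℝ) ∧
      ∀ x y z w : ℕ, (x, y, z, w) ∈ S → n = x ^ 2 + y ^ 2 + z ^ 2 + w ^ 2 ∧
        Nat.Coprime (2 ^ (x + y) + 2 ^ (z + w) + 1) (2 * (2 ^ K - 1)) ∧
        (∀ p ∈ P, ¬ p ∣ 2 ^ (x + y) + 2 ^ (z + w) + 1) ∧ (∀ q ∈ Q, ¬ q ∣ 2 ^ (x + y) + 2 ^ (z + w) + 1) := by
  classical
  set η : ℝ := min (ε / 4) (γ / 4) with hη
  have hη0 : 0 < η := by positivity
  have hη1 : η ≤ ε / 4 := min_le_left _ _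
  have hη2 : η ≤ γ / 4 := min_le_right _ _
  obtain ⟨C, hC, hkill⟩ := kill η hη0
  obtain ⟨δ, hδ, n1, h1⟩ := Pool.Agent.TH696.FA.main_count η hη0
  obtain ⟨n2, hn2⟩ := Pool.Agent.TH696.FA.large_rp (2 * (2 * C * (k + 1))) η hη0
  obtain ⟨n3, hn3⟩ := Pool.Agent.TH696.FA.large_rp 2 η hη0
  refine ⟨δ, hδ, n1 + n2 + n3, ?_⟩
  intro n K hn hno hK hKn P Q θ hPk hP hθ hθ2 hQc hQ
  have hn' : 1 ≤ n := hno.pos
  have hn1 : (1 : ℝ) ≤ n := by exact_mod_cast hn'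
  have hn0 : (0 : ℝ) < n := by linarith
  obtain ⟨S0, hS0, hS0'⟩ := h1 n K (by omega) hno hK hKn
  set BP := S0.filter (fun t => ∃ p ∈ P, p ∣ 2 ^ (t.1 + t.2.1) + 2 ^ (t.2.2.1 + t.2.2.2) + 1) with hBP
  set BQ := S0.filter (fun t => ∃ p ∈ Q, p ∣ 2 ^ (t.1 + t.2.1) + 2 ^ (t.2.2.1 + t.2.2.2) + 1) with hBQ
  have c1 : (BP.card : ℝ) ≤ P.card * (2 * C * (n : ℝ) ^ (1 - γ + η)) := by
    apply killQ n hn' C η γ hC hγ2 (fun q => hkill n q hn') P hP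
    intro x y z w ht
    rw [hBP, mem_filter] at ht
    exact ⟨(hS0' x y z w ht.1).1, ht.2⟩
  have c2 : (BQ.card : ℝ) ≤ Q.card * (2 * C * (n : ℝ) ^ (1 - θ + η)) := by
    apply killQ n hn' C η θ hC hθ2 (fun q => hkill n q hn') Q hQ
    intro x y z w ht
    rw [hBQ, mem_filter] at ht
    exact ⟨(hS0' x y z w ht.1).1, ht.2⟩
  refine ⟨S0 \ (BP ∪ BQ), ?_, ?_⟩
  · have c3 : (BP.card : ℝ) ≤ 2 * C * k * (n : ℝ) ^ (1 - 2 * η) := by
      have e1 : (P.card : ℝ) ≤ k := by exact_mod_cast hPk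
      have e2 : (n : ℝ) ^ (1 - γ + η) ≤ (n : ℝ) ^ (1 - 2 * η) := Real.rpow_le_rpow_of_exponent_le hn1 (by linarith)
      calc (BP.card : ℝ) ≤ P.card * (2 * C * (n : ℝ) ^ (1 - γ + η)) := c1
        _ ≤ k * (2 * C * (n : ℝ) ^ (1 - 2 * η)) := by gcongr
        _ = _ := by ring
    have c4 : (BQ.card : ℝ) ≤ 2 * C * (n : ℝ) ^ (1 - 2 * η) := by
      calc (BQ.card : ℝ) ≤ Q.card * (2 * C * (n : ℝ) ^ (1 - θ + η)) := c2
        _ ≤ (n : ℝ) ^ (θ - ε) * (2 * C * (n : ℝ) ^ (1 - θ + η)) := by gcongr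
        _ = 2 * C * ((n : ℝ) ^ (θ - ε) * (n : ℝ) ^ (1 - θ + η)) := by ring
        _ = 2 * C * (n : ℝ) ^ (1 - ε + η) := by
            rw [← Real.rpow_add hn0]; congr 2; ring
        _ ≤ _ := by
            have : (n : ℝ) ^ (1 - ε + η) ≤ (n : ℝ) ^ (1 - 2 * η) := Real.rpow_le_rpow_of_exponent_le hn1 (by linarith)
            gcongr
    have c5 : (S0.card : ℝ) ≤ ((S0 \ (BP ∪ BQ)).card : ℝ) + (BP.card + BQ.card) := by
      have g1 : S0 ⊆ (S0 \ (BP ∪ BQ)) ∪ (BP ∪ BQ) := by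
        intro t ht
        by_cases h : t ∈ BP ∪ BQ
        · exact mem_union_right _ h
        · exact mem_union_left _ (mem_sdiff.2 ⟨ht, h⟩)
      have g2 := (Finset.card_le_card g1).trans (Finset.card_union_le _ _)
      have g3 := Finset.card_union_le BP BQ
      have g4 : S0.card ≤ (S0 \ (BP ∪ BQ)).card + (BP.card + BQ.card) := by omega
      exact_mod_cast g4
    have e3 : (n : ℝ) ^ (1 - η) = (n : ℝ) ^ η * (n : ℝ) ^ (1 - 2 * η) := by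
      rw [← Real.rpow_add hn0]; congr 1; ring
    have e4 := hn2 n (by omega)
    have e5 := hn3 n (by omega)
    have hX : 0 < (n : ℝ) ^ (1 - 2 * η) := Real.rpow_pos_of_pos hn0 _
    have e6 : (n : ℝ) ^ (1 - ε) ≤ (n : ℝ) ^ (1 - 2 * η) := Real.rpow_le_rpow_of_exponent_le hn1 (by linarith)
    have e7 : 2 * C * k * (n : ℝ) ^ (1 - 2 * η) + 2 * C * (n : ℝ) ^ (1 - 2 * η) ≤
        ((n : ℝ) ^ η / 2) * (n : ℝ) ^ (1 - 2 * η) := by
      have : 2 * C * k + 2 * C ≤ (n : ℝ) ^ η / 2 := by linarith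
      calc _ = (2 * C * k + 2 * C) * (n : ℝ) ^ (1 - 2 * η) := by ring
        _ ≤ _ := by gcongr
    have e8 : (n : ℝ) ^ (1 - 2 * η) ≤ ((n : ℝ) ^ η / 2) * (n : ℝ) ^ (1 - 2 * η) := by
      have : 1 ≤ (n : ℝ) ^ η / 2 := by linarith
      nlinarith
    nlinarith [hS0]
  · intro x y z w ht
    rw [mem_sdiff, mem_union, not_or] at ht
    obtain ⟨ht0, htP, htQ⟩ := ht
    obtain ⟨g1, g2⟩ := hS0' x y z w ht0
    refine ⟨g1, g2, ?_, ?_⟩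
    · intro p hp hd
      exact htP (mem_filter.2 ⟨ht0, p, hp, hd⟩)
    · intro p hp hd
      exact htQ (mem_filter.2 ⟨ht0, p, hp, hd⟩)

theorem good (k : ℕ) : Good k := by
  classical
  induction k with
  | zero =>
    intro ε hε
    obtain ⟨δ, hδ, n0, h⟩ := core 0 ε (1 / 2) hε (by norm_num) le_rfl
    refine ⟨δ, hδ, n0, ?_⟩
    intro n K hn hno hK hKn P Q θ hPk _ hθ hθ2 hQc hQ
    have hP0 : P = ∅ := by
      rw [← Finset.card_eq_zero]; omega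
    subst hP0
    exact h n K hn hno hK hKn ∅ Q θ (by simp) (by simp) hθ hθ2 hQc hQ
  | succ k ih =>
    intro ε hε
    obtain ⟨δ1, hδ1, n1, h1⟩ := ih ε hε
    set γ : ℝ := min (1 / 2) (δ1 / 2) with hγ
    have hγ0 : 0 < γ := by positivity
    have hγ1 : γ ≤ 1 / 2 := min_le_left _ _
    have hγ2 : γ ≤ δ1 / 2 := min_le_right _ _
    obtain ⟨δ2, hδ2, n2, h2⟩ := core (k + 1) ε γ hε hγ0 hγ1
    refine ⟨min (δ1 / 2) δ2, by positivity, n1 + n2, ?_⟩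
    intro n K hn hno hK hKn P Q θ hPk hP hθ hθ2 hQc hQ
    have hn' : 1 ≤ n := hno.pos
    have hn1 : (1 : ℝ) ≤ n := by exact_mod_cast hn'
    have hn0 : (0 : ℝ) < n := by linarith
    have hK1 : (K : ℝ) ≤ (n : ℝ) ^ (δ1 / 2) :=
      hKn.trans (Real.rpow_le_rpow_of_exponent_le hn1 (min_le_left _ _))
    have hK2 : (K : ℝ) ≤ (n : ℝ) ^ δ2 :=
      hKn.trans (Real.rpow_le_rpow_of_exponent_le hn1 (min_le_right _ _))
    by_cases hall : ∀ p ∈ P, p.Prime ∧ (n : ℝ) ^ γ ≤ orderOf (2 : ZMod p)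
    · exact h2 n K (by omega) hno hK hK2 P Q θ hPk hall hθ hθ2 hQc hQ
    · push Not at hall
      obtain ⟨p, hp, hpo⟩ := hall
      have hpp := hP p hp
      have hpo' := hpo hpp
      have hcard : (P.erase p).card ≤ k := by
        rw [Finset.card_erase_of_mem hp]; omega
      rcases Nat.eq_zero_or_pos (orderOf (2 : ZMod p)) with h0 | h0
      · -- `p = 2`
        have hp2 : p = 2 := by
          by_contra hne
          have : Fact p.Prime := ⟨hpp⟩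
          have h2ne : (2 : ZMod p) ≠ 0 := by
            intro h
            have h' : ((2 : ℕ) : ZMod p) = 0 := by exact_mod_cast h
            rw [ZMod.natCast_eq_zero_iff] at h'
            exact hne ((Nat.prime_dvd_prime_iff_eq hpp Nat.prime_two).1 h')
          obtain ⟨u, hu⟩ := isUnit_iff_ne_zero.2 h2ne
          rw [← hu, orderOf_units] at h0
          have := orderOf_pos u
          omega
        obtain ⟨S, hS, hS'⟩ := h1 n K (by omega) hno hK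
          (hK1.trans (Real.rpow_le_rpow_of_exponent_le hn1 (by linarith))) (P.erase p) Q θ hcard
          (fun q hq => hP q (Finset.mem_of_mem_erase hq)) hθ hθ2 hQc hQ
        refine ⟨S, hS, ?_⟩
        intro x y z w ht
        obtain ⟨g1, g2, g3, g4⟩ := hS' x y z w ht
        refine ⟨g1, g2, ?_, g4⟩
        intro q hq hd
        by_cases hqp : q = p
        · rw [hqp, hp2] at hd
          have := Nat.dvd_gcd hd (Dvd.intro _ rfl : 2 ∣ 2 * (2 ^ K - 1))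
          rw [Nat.Coprime] at g2
          rw [g2] at this
          omega
        · exact g3 q (Finset.mem_erase.2 ⟨hqp, hq⟩) hd
      · set m := orderOf (2 : ZMod p) with hm
        have hKm : ((K * m : ℕ) : ℝ) ≤ (n : ℝ) ^ δ1 := by
          push_cast
          calc (K : ℝ) * m ≤ (n : ℝ) ^ (δ1 / 2) * (n : ℝ) ^ (δ1 / 2) := by
                apply mul_le_mul hK1 _ (by positivity) (by positivity)
                exact hpo'.le.trans (Real.rpow_le_rpow_of_exponent_le hn1 hγ2)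
            _ = _ := by rw [← Real.rpow_add hn0]; congr 1; ring
        obtain ⟨S, hS, hS'⟩ := h1 n (K * m) (by omega) hno (Nat.mul_pos hK h0) hKm (P.erase p) Q θ hcard
          (fun q hq => hP q (Finset.mem_of_mem_erase hq)) hθ hθ2 hQc hQ
        refine ⟨S, hS, ?_⟩
        intro x y z w ht
        obtain ⟨g1, g2, g3, g4⟩ := hS' x y z w ht
        have d1 : 2 ^ K - 1 ∣ 2 ^ (K * m) - 1 := by
          have := Nat.pow_sub_pow_dvd_pow_sub_pow 2 1 (Dvd.intro m rfl : K ∣ K * m)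
          simpa using this
        refine ⟨g1, g2.coprime_dvd_right (Nat.mul_dvd_mul_left 2 d1), ?_, g4⟩
        intro q hq hd
        by_cases hqp : q = p
        · rw [hqp] at hd
          have d2 : p ∣ 2 ^ (K * m) - 1 := by
            rw [← ZMod.natCast_eq_zero_iff, Nat.cast_sub Nat.one_le_two_pow]
            push_cast
            rw [mul_comm, pow_mul, hm, pow_orderOf_eq_one, one_pow, sub_self]
          have := Nat.dvd_gcd hd (d2.mul_left 2)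
          rw [Nat.Coprime] at g2
          rw [g2] at this
          exact hpp.one_lt.ne' (Nat.dvd_one.1 this)
        · exact g3 q (Finset.mem_erase.2 ⟨hqp, hq⟩) hd

end Pool.Agent.Q249.CN
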