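import Pool.Agent.Q249.CN.Main

/-!
# The part of `2^(x+y) + 2^(z+w) + 1` composed of primes up to `n ^ (1/2 - ε)`
-/

set_option autoImplicit false
open Finset

namespace Pool.Agent.Q249.CN

/-- the order of `2` modulo an odd number -/
lemma order_lower (d : ℕ) (hd : Odd d) :
    0 < orderOf (2 : ZMod d) ∧ d < 2 ^ orderOf (2 : ZMod d) := by
  have hd0 : d ≠ 0 := by rintro rfl; simp at hd
  have : NeZero d := ⟨hd0⟩
  have hc : Nat.Coprime 2 d := (Nat.coprime_two_left).2 hd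
  have hu : ((ZMod.unitOfCoprime 2 hc : (ZMod d)ˣ) : ZMod d) = 2 := by
    rw [ZMod.coe_unitOfCoprime]; norm_num
  have h0 : 0 < orderOf (2 : ZMod d) := by
    rw [← hu, orderOf_units]
    exact orderOf_pos _
  refine ⟨h0, ?_⟩
  have h1 : (2 : ZMod d) ^ orderOf (2 : ZMod d) = 1 := pow_orderOf_eq_one _
  have h2 : d ∣ 2 ^ orderOf (2 : ZMod d) - 1 := by
    rw [← ZMod.natCast_eq_zero_iff, Nat.cast_sub Nat.one_le_two_pow]
    push_cast
    rw [h1, sub_self]
  have h3 : 2 ≤ 2 ^ orderOf (2 : ZMod d) := by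
    calc 2 = 2 ^ 1 := by norm_num
      _ ≤ 2 ^ orderOf (2 : ZMod d) := Nat.pow_le_pow_right (by norm_num) h0
  have h4 := Nat.le_of_dvd (by omega) h2
  omega

/-- exponents with a value divisible by `d` -/
lemma div_count (B c d : ℕ) (hd : Odd d) :
    ((range (B + 1)).filter (fun b => d ∣ c + 2 ^ b)).card ≤ B / orderOf (2 : ZMod d) + 1 := by
  have hd0 : d ≠ 0 := by rintro rfl; simp at hd
  have : NeZero d := ⟨hd0⟩
  have hc : Nat.Coprime 2 d := (Nat.coprime_two_left).2 hd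
  have hu : ((ZMod.unitOfCoprime 2 hc : (ZMod d)ˣ) : ZMod d) = 2 := by
    rw [ZMod.coe_unitOfCoprime]; norm_num
  apply class_card B
  · intro b hb
    have := (mem_filter.1 hb).1
    rw [mem_range] at this
    omega
  · intro b hb b' hb'
    have e1 := (ZMod.natCast_eq_zero_iff _ _).2 (mem_filter.1 hb).2
    have e2 := (ZMod.natCast_eq_zero_iff _ _).2 (mem_filter.1 hb').2
    push_cast at e1 e2
    have e3 : (2 : ZMod d) ^ b = 2 ^ b' := by linear_combination e1 - e2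
    rw [← hu] at e3 ⊢
    rw [← Units.val_pow_eq_pow_val, ← Units.val_pow_eq_pow_val, Units.val_inj, pow_eq_pow_iff_modEq] at e3
    rw [orderOf_units]
    exact e3

/-- one prime, one exponent fixed -/
lemma sum_val (B a q : ℕ) (haB : a ≤ B) (hq : q.Prime) (hq2 : q ≠ 2) :
    (∑ b ∈ range (B + 1), ((2 ^ a + 2 ^ b + 1).factorization q : ℝ)) * Real.log q ≤
      ((B : ℝ) + 2) * (2 + Real.log ((B : ℝ) + 2)) := by
  classical
  have hqo : Odd q := hq.odd_of_ne_two hq2
  have hq1 : 1 < q := hq.one_lt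
  have hlq : 0 < Real.log q := Real.log_pos (by exact_mod_cast hq1)
  set J := Nat.log q (2 ^ (B + 2)) with hJ
  have hJB : (J : ℝ) * Real.log q ≤ ((B : ℝ) + 2) * Real.log 2 := by
    have h1 : q ^ J ≤ 2 ^ (B + 2) := Nat.pow_log_le_self q (by positivity)
    have h2 : ((q : ℝ)) ^ J ≤ 2 ^ (B + 2) := by exact_mod_cast h1
    have h3 := Real.log_le_log (by positivity) h2
    rw [Real.log_pow, Real.log_pow] at h3
    push_cast at h3
    exact h3
  have hl2 : Real.log 2 ≤ 1 := by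
    have := Real.log_two_lt_d9
    linarith
  have hl20 : 0 < Real.log 2 := Real.log_pos (by norm_num)
  have hJ2 : (J : ℝ) ≤ (B : ℝ) + 2 := by
    have h1 : Real.log 2 ≤ Real.log q := Real.log_le_log (by norm_num) (by exact_mod_cast hq.two_le)
    have h2 : (J : ℝ) * Real.log 2 ≤ ((B : ℝ) + 2) * Real.log 2 :=
      (mul_le_mul_of_nonneg_left h1 (Nat.cast_nonneg _)).trans hJB
    exact le_of_mul_le_mul_right h2 hl20
  have hval : ∀ b ∈ range (B + 1), (2 ^ a + 2 ^ b + 1).factorization q ≤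
      ((Icc 1 J).filter (fun j => q ^ j ∣ (2 ^ a + 1) + 2 ^ b)).card := by
    intro b hb
    rw [mem_range] at hb
    rw [Nat.factorization_eq_card_pow_dvd _ hq]
    apply Finset.card_le_card
    intro j hj
    rw [mem_filter, mem_Ico] at hj
    obtain ⟨⟨hj1, _⟩, hjd⟩ := hj
    rw [mem_filter, mem_Icc]
    have e : 2 ^ a + 1 + 2 ^ b = 2 ^ a + 2 ^ b + 1 := by ring
    rw [e]
    refine ⟨⟨hj1, ?_⟩, hjd⟩
    apply Nat.le_log_of_pow_le hq1
    have h1 := Nat.le_of_dvd (by positivity) hjd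
    have h2 : 2 ^ a ≤ 2 ^ B := Nat.pow_le_pow_right (by norm_num) haB
    have h3 : 2 ^ b ≤ 2 ^ B := Nat.pow_le_pow_right (by norm_num) (by omega)
    have h4 : 1 ≤ 2 ^ B := Nat.one_le_two_pow
    have h5 : 2 ^ (B + 2) = 4 * 2 ^ B := by rw [pow_add]; ring
    omega
  have h1 : ∑ b ∈ range (B + 1), (2 ^ a + 2 ^ b + 1).factorization q ≤
      ∑ j ∈ Icc 1 J, (B / orderOf (2 : ZMod (q ^ j)) + 1) := by
    calc ∑ b ∈ range (B + 1), (2 ^ a + 2 ^ b + 1).factorization q
        ≤ ∑ b ∈ range (B + 1), ((Icc 1 J).filter (fun j => q ^ j ∣ (2 ^ a + 1) + 2 ^ b)).card := by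
          apply Finset.sum_le_sum
          intro b hb
          exact hval b hb
      _ = ∑ j ∈ Icc 1 J, ((range (B + 1)).filter (fun b => q ^ j ∣ (2 ^ a + 1) + 2 ^ b)).card := by
          simp only [Finset.card_filter]
          rw [Finset.sum_comm]
      _ ≤ _ := Finset.sum_le_sum fun j _ => div_count B (2 ^ a + 1) (q ^ j) (hqo.pow)
  have h2 : (∑ b ∈ range (B + 1), ((2 ^ a + 2 ^ b + 1).factorization q : ℝ)) ≤
      ∑ j ∈ Icc 1 J, ((B : ℝ) / orderOf (2 : ZMod (q ^ j)) + 1) := by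
    have h3 : (∑ b ∈ range (B + 1), ((2 ^ a + 2 ^ b + 1).factorization q : ℝ)) ≤
        ∑ j ∈ Icc 1 J, (((B / orderOf (2 : ZMod (q ^ j)) : ℕ) : ℝ) + 1) := by exact_mod_cast h1
    refine h3.trans (Finset.sum_le_sum fun j _ => ?_)
    have : ((B / orderOf (2 : ZMod (q ^ j)) : ℕ) : ℝ) ≤ (B : ℝ) / orderOf (2 : ZMod (q ^ j)) := Nat.cast_div_le
    linarith
  have h4 : ∀ j ∈ Icc 1 J, ((B : ℝ) / orderOf (2 : ZMod (q ^ j)) + 1) * Real.log q ≤
      (B : ℝ) * ((j : ℝ)⁻¹) + Real.log q := by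
    intro j hj
    rw [mem_Icc] at hj
    obtain ⟨g1, g2⟩ := order_lower (q ^ j) hqo.pow
    have hm : (0 : ℝ) < orderOf (2 : ZMod (q ^ j)) := by exact_mod_cast g1
    have hj0 : (0 : ℝ) < j := by exact_mod_cast (by omega : 0 < j)
    have g3 : ((q : ℝ)) ^ j ≤ 2 ^ orderOf (2 : ZMod (q ^ j)) := by exact_mod_cast g2.le
    have g4 := Real.log_le_log (by positivity) g3
    rw [Real.log_pow, Real.log_pow] at g4
    have g5 : (j : ℝ) * Real.log q ≤ orderOf (2 : ZMod (q ^ j)) := by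
      refine g4.trans ?_
      nlinarith
    have g6 : Real.log q / orderOf (2 : ZMod (q ^ j)) ≤ (j : ℝ)⁻¹ := by
      rw [div_le_iff₀ hm, inv_mul_eq_div, le_div_iff₀ hj0]
      linarith
    have hB0 : (0 : ℝ) ≤ B := Nat.cast_nonneg _
    calc ((B : ℝ) / orderOf (2 : ZMod (q ^ j)) + 1) * Real.log q
        = (B : ℝ) * (Real.log q / orderOf (2 : ZMod (q ^ j))) + Real.log q := by ring
      _ ≤ _ := by gcongr
  have h5 : ∑ j ∈ Icc 1 J, ((j : ℝ)⁻¹) ≤ 1 + Real.log ((B : ℝ) + 2) := by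
    have g1 : ((harmonic J : ℚ) : ℝ) = ∑ j ∈ Icc 1 J, ((j : ℝ)⁻¹) := by
      rw [harmonic_eq_sum_Icc]
      push_cast
      rfl
    rw [← g1]
    refine (harmonic_le_one_add_log J).trans ?_
    rcases Nat.eq_zero_or_pos J with h0 | h0
    · rw [h0]
      have : 0 ≤ Real.log ((B : ℝ) + 2) := Real.log_nonneg (by
        have : (0 : ℝ) ≤ B := Nat.cast_nonneg _
        linarith)
      simp only [Nat.cast_zero, Real.log_zero]
      linarith
    · have := Real.log_le_log (by exact_mod_cast h0 : (0 : ℝ) < J) hJ2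
      linarith
  have hB0 : (0 : ℝ) ≤ B := Nat.cast_nonneg _
  have hlB : 0 ≤ Real.log ((B : ℝ) + 2) := Real.log_nonneg (by linarith)
  calc (∑ b ∈ range (B + 1), ((2 ^ a + 2 ^ b + 1).factorization q : ℝ)) * Real.log q
      ≤ (∑ j ∈ Icc 1 J, ((B : ℝ) / orderOf (2 : ZMod (q ^ j)) + 1)) * Real.log q := by gcongr
    _ = ∑ j ∈ Icc 1 J, ((B : ℝ) / orderOf (2 : ZMod (q ^ j)) + 1) * Real.log q := by rw [Finset.sum_mul]
    _ ≤ ∑ j ∈ Icc 1 J, ((B : ℝ) * ((j : ℝ)⁻¹) + Real.log q) := Finset.sum_le_sum h4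
    _ = (B : ℝ) * (∑ j ∈ Icc 1 J, ((j : ℝ)⁻¹)) + J * Real.log q := by
        rw [Finset.sum_add_distrib, ← Finset.mul_sum, Finset.sum_const, Nat.card_Icc, nsmul_eq_mul]
        simp
    _ ≤ (B : ℝ) * (1 + Real.log ((B : ℝ) + 2)) + ((B : ℝ) + 2) * Real.log 2 := by gcongr
    _ ≤ _ := by nlinarith

/-- the logarithm of the part of `N` composed of odd primes up to `y` -/
noncomputable def smoothLog (y N : ℕ) : ℝ :=
  ∑ q ∈ (range (y + 1)).filter (fun q => q.Prime ∧ q ≠ 2), (N.factorization q : ℝ) * Real.log q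

lemma smoothLog_nonneg (y N : ℕ) : 0 ≤ smoothLog y N := by
  unfold smoothLog
  apply Finset.sum_nonneg
  intro q hq
  have : 0 ≤ Real.log (q : ℝ) := Real.log_natCast_nonneg q
  positivity

lemma log_le_smoothLog (y N d : ℕ) (hN : N ≠ 0) (hd : Odd d) (hdN : d ∣ N)
    (hp : ∀ p : ℕ, p.Prime → p ∣ d → p ≤ y) : Real.log d ≤ smoothLog y N := by
  have hd0 : d ≠ 0 := by rintro rfl; simp at hd
  rw [Real.log_nat_eq_sum_factorization, Finsupp.sum, Nat.support_factorization]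
  unfold smoothLog
  have h1 : d.primeFactors ⊆ (range (y + 1)).filter (fun q => q.Prime ∧ q ≠ 2) := by
    intro p hpd
    have hpp := Nat.prime_of_mem_primeFactors hpd
    have hpd' := Nat.dvd_of_mem_primeFactors hpd
    rw [mem_filter, mem_range]
    refine ⟨Nat.lt_succ_of_le (hp p hpp hpd'), hpp, ?_⟩
    rintro rfl
    exact (Nat.not_even_iff_odd.2 hd) (even_iff_two_dvd.2 hpd')
  calc ∑ p ∈ d.primeFactors, (d.factorization p : ℝ) * Real.log p
      ≤ ∑ p ∈ d.primeFactors, (N.factorization p : ℝ) * Real.log p := by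
        apply Finset.sum_le_sum
        intro p _
        have g1 : d.factorization p ≤ N.factorization p := (Nat.factorization_le_iff_dvd hd0 hN).2 hdN p
        have g2 : (d.factorization p : ℝ) ≤ N.factorization p := by exact_mod_cast g1
        have g3 : 0 ≤ Real.log (p : ℝ) := Real.log_natCast_nonneg p
        gcongr
    _ ≤ _ := by
        apply Finset.sum_le_sum_of_subset_of_nonneg h1
        intro p _ _
        have g3 : 0 ≤ Real.log (p : ℝ) := Real.log_natCast_nonneg p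
        positivity

/-- all pairs of exponents -/
lemma sum_smooth (B y : ℕ) :
    ∑ p ∈ range (B + 1) ×ˢ range (B + 1), smoothLog y (2 ^ p.1 + 2 ^ p.2 + 1) ≤
      ((B : ℝ) + 1) * (((y : ℝ) + 1) * (((B : ℝ) + 2) * (2 + Real.log ((B : ℝ) + 2)))) := by
  classical
  rw [Finset.sum_product]
  have hB0 : (0 : ℝ) ≤ B := Nat.cast_nonneg _
  have hlB : 0 ≤ Real.log ((B : ℝ) + 2) := Real.log_nonneg (by linarith)
  have h1 : ∀ a ∈ range (B + 1), ∑ b ∈ range (B + 1), smoothLog y (2 ^ a + 2 ^ b + 1) ≤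
      ((y : ℝ) + 1) * (((B : ℝ) + 2) * (2 + Real.log ((B : ℝ) + 2))) := by
    intro a ha
    rw [mem_range] at ha
    unfold smoothLog
    rw [Finset.sum_comm]
    calc ∑ q ∈ (range (y + 1)).filter (fun q => q.Prime ∧ q ≠ 2),
          ∑ b ∈ range (B + 1), ((2 ^ a + 2 ^ b + 1).factorization q : ℝ) * Real.log q
        ≤ ∑ q ∈ (range (y + 1)).filter (fun q => q.Prime ∧ q ≠ 2),
          (((B : ℝ) + 2) * (2 + Real.log ((B : ℝ) + 2))) := by
          apply Finset.sum_le_sum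
          intro q hq
          rw [mem_filter] at hq
          rw [← Finset.sum_mul]
          exact sum_val B a q (by omega) hq.2.1 hq.2.2
      _ = (((range (y + 1)).filter (fun q => q.Prime ∧ q ≠ 2)).card : ℝ) *
          (((B : ℝ) + 2) * (2 + Real.log ((B : ℝ) + 2))) := by rw [Finset.sum_const, nsmul_eq_mul]
      _ ≤ _ := by
          have g1 : ((range (y + 1)).filter (fun q => q.Prime ∧ q ≠ 2)).card ≤ y + 1 := by
            refine (Finset.card_filter_le _ _).trans ?_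
            rw [Finset.card_range]
          have g2 : (((range (y + 1)).filter (fun q => q.Prime ∧ q ≠ 2)).card : ℝ) ≤ (y : ℝ) + 1 := by
            exact_mod_cast g1
          have g3 : 0 ≤ ((B : ℝ) + 2) * (2 + Real.log ((B : ℝ) + 2)) := by positivity
          gcongr
  calc ∑ a ∈ range (B + 1), ∑ b ∈ range (B + 1), smoothLog y (2 ^ a + 2 ^ b + 1)
      ≤ ∑ a ∈ range (B + 1), ((y : ℝ) + 1) * (((B : ℝ) + 2) * (2 + Real.log ((B : ℝ) + 2))) :=
        Finset.sum_le_sum h1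
    _ = _ := by rw [Finset.sum_const, Finset.card_range, nsmul_eq_mul]; push_cast; ring

end Pool.Agent.Q249.CN
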