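import Pool.Agent.Q249.CN.Smooth

/-!
# Almost all values `2^(x+y) + 2^(z+w) + 1` have a small part composed of primes up to `n ^ (1/2 - ε)`
-/

set_option autoImplicit false
open Finset

namespace Pool.Agent.Q249.CN

lemma exc_nat (n y0 : ℕ) (Z D : ℝ) (hZ : 0 < Z) (hD : 1 ≤ D)
    (hdiv : ∀ M : ℕ, 1 ≤ M → M ≤ 2 * n → (M.divisors.card : ℝ) ≤ D)
    (T : Finset (ℕ × ℕ × ℕ × ℕ))
    (hT : ∀ x y z w : ℕ, (x, y, z, w) ∈ T → n = x ^ 2 + y ^ 2 + z ^ 2 + w ^ 2 ∧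
      Z < smoothLog y0 (2 ^ (x + y) + 2 ^ (z + w) + 1)) :
    (T.card : ℝ) ≤ 8 * D ^ 2 * ((((Nat.sqrt (2 * n) : ℕ) : ℝ) + 1) * (((y0 : ℝ) + 1) *
      ((((Nat.sqrt (2 * n) : ℕ) : ℝ) + 2) * (2 + Real.log (((Nat.sqrt (2 * n) : ℕ) : ℝ) + 2)))) / Z) := by
  classical
  set B := Nat.sqrt (2 * n) with hB
  let f : ℕ × ℕ × ℕ × ℕ → ℕ × ℕ := fun t => (t.1 + t.2.1, t.2.2.1 + t.2.2.2)
  have h1 : T.card ≤ ⌊8 * D ^ 2⌋₊ * (T.image f).card := by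
    apply Finset.card_le_mul_card_image
    intro p _
    apply Nat.le_floor
    apply fib_card n p.1 p.2 D hD hdiv
    intro t ht
    rw [mem_filter] at ht
    refine ⟨(hT t.1 t.2.1 t.2.2.1 t.2.2.2 ht.1).1, ?_, ?_⟩
    · rw [← ht.2]
    · rw [← ht.2]
  have h2 : T.image f ⊆ range (B + 1) ×ˢ range (B + 1) := by
    intro p hp
    rw [mem_image] at hp
    obtain ⟨t, ht, rfl⟩ := hp
    obtain ⟨g1, _⟩ := hT t.1 t.2.1 t.2.2.1 t.2.2.2 ht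
    rw [mem_product, mem_range, mem_range]
    refine ⟨Nat.lt_succ_of_le ?_, Nat.lt_succ_of_le ?_⟩
    · show t.1 + t.2.1 ≤ _
      rw [hB, Nat.le_sqrt']
      have := sq_nonneg ((t.1 : ℤ) - t.2.1)
      zify
      rw [g1]
      push_cast
      nlinarith [sq_nonneg ((t.2.2.1 : ℤ)), sq_nonneg ((t.2.2.2 : ℤ))]
    · show t.2.2.1 + t.2.2.2 ≤ _
      rw [hB, Nat.le_sqrt']
      have := sq_nonneg ((t.2.2.1 : ℤ) - t.2.2.2)
      zify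
      rw [g1]
      push_cast
      nlinarith [sq_nonneg ((t.1 : ℤ)), sq_nonneg ((t.2.1 : ℤ))]
  have h3 : ((T.image f).card : ℝ) * Z ≤ ((B : ℝ) + 1) * (((y0 : ℝ) + 1) *
      (((B : ℝ) + 2) * (2 + Real.log ((B : ℝ) + 2)))) := by
    calc ((T.image f).card : ℝ) * Z = ∑ p ∈ T.image f, Z := by rw [Finset.sum_const, nsmul_eq_mul]
      _ ≤ ∑ p ∈ T.image f, smoothLog y0 (2 ^ p.1 + 2 ^ p.2 + 1) := by
          apply Finset.sum_le_sum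
          intro p hp
          rw [mem_image] at hp
          obtain ⟨t, ht, rfl⟩ := hp
          exact (hT t.1 t.2.1 t.2.2.1 t.2.2.2 ht).2.le
      _ ≤ ∑ p ∈ range (B + 1) ×ˢ range (B + 1), smoothLog y0 (2 ^ p.1 + 2 ^ p.2 + 1) :=
          Finset.sum_le_sum_of_subset_of_nonneg h2 (fun p _ _ => smoothLog_nonneg _ _)
      _ ≤ _ := sum_smooth B y0
  have h4 : ((T.image f).card : ℝ) ≤ ((B : ℝ) + 1) * (((y0 : ℝ) + 1) *
      (((B : ℝ) + 2) * (2 + Real.log ((B : ℝ) + 2)))) / Z := by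
    rw [le_div_iff₀ hZ]
    exact h3
  calc (T.card : ℝ) ≤ ((⌊8 * D ^ 2⌋₊ * (T.image f).card : ℕ) : ℝ) := by exact_mod_cast h1
    _ = (⌊8 * D ^ 2⌋₊ : ℝ) * ((T.image f).card : ℝ) := by push_cast; ring
    _ ≤ (8 * D ^ 2) * _ := by
        apply mul_le_mul (Nat.floor_le (by positivity)) h4 (by positivity) (by positivity)

/-- the number of exceptional representations -/
theorem exceptions (ε : ℝ) (hε : 0 < ε) (hε2 : ε < 1 / 2) : ∃ C : ℝ, 0 < C ∧ ∀ n : ℕ, 1 ≤ n →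
    ∀ T : Finset (ℕ × ℕ × ℕ × ℕ),
    (∀ x y z w : ℕ, (x, y, z, w) ∈ T → n = x ^ 2 + y ^ 2 + z ^ 2 + w ^ 2 ∧
      (n : ℝ) ^ (1 / 2 - ε / 2) < smoothLog ⌊(n : ℝ) ^ (1 / 2 - ε)⌋₊ (2 ^ (x + y) + 2 ^ (z + w) + 1)) →
    (T.card : ℝ) ≤ C * (n : ℝ) ^ (1 - ε / 4) := by
  set η : ℝ := ε / 8 with hη
  have hη0 : 0 < η := by positivity
  obtain ⟨C, hC, hdiv⟩ := Pool.Agent.H510R2.divisor_bound (η / 2) (by positivity)
  set C' : ℝ := max 1 (C * 2 ^ (η / 2)) with hC'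
  have hC1 : 1 ≤ C' := le_max_left _ _
  set c1 : ℝ := (4 : ℝ) ^ (2 * η) / (2 * η) with hc1
  have hc10 : 0 < c1 := by positivity
  refine ⟨8 * C' ^ 2 * (24 * (2 + c1)), by positivity, ?_⟩
  intro n hn T hT
  have hn1 : (1 : ℝ) ≤ n := by exact_mod_cast hn
  have hn0 : (0 : ℝ) < n := by linarith
  have hD1 : 1 ≤ C' * (n : ℝ) ^ (η / 2) := by
    have := Real.one_le_rpow hn1 (by positivity : 0 ≤ η / 2)
    nlinarith
  have hdiv' : ∀ M : ℕ, 1 ≤ M → M ≤ 2 * n → (M.divisors.card : ℝ) ≤ C' * (n : ℝ) ^ (η / 2) := by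
    intro M hM hM2
    have hM2' : (M : ℝ) ≤ 2 * n := by exact_mod_cast hM2
    calc (M.divisors.card : ℝ) ≤ C * (M : ℝ) ^ (η / 2) := hdiv M hM
      _ ≤ C * (2 * n : ℝ) ^ (η / 2) := by gcongr
      _ = (C * 2 ^ (η / 2)) * (n : ℝ) ^ (η / 2) := by
          rw [Real.mul_rpow (by norm_num) hn0.le]; ring
      _ ≤ C' * (n : ℝ) ^ (η / 2) := by
          gcongr
          exact le_max_right _ _
  have hZ : 0 < (n : ℝ) ^ (1 / 2 - ε / 2) := Real.rpow_pos_of_pos hn0 _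
  have h1 := exc_nat n ⌊(n : ℝ) ^ (1 / 2 - ε)⌋₊ _ _ hZ hD1 hdiv' T hT
  set s : ℝ := (n : ℝ) ^ (1 / 2 : ℝ) with hsd
  have hs1 : 1 ≤ s := Real.one_le_rpow hn1 (by norm_num)
  have hs0 : 0 < s := by linarith
  have hss : s * s = n := by
    rw [hsd, ← Real.rpow_add hn0]; norm_num
  set B : ℝ := ((Nat.sqrt (2 * n) : ℕ) : ℝ) with hB
  have hB0 : 0 ≤ B := Nat.cast_nonneg _
  have hs : B ≤ 2 * s := by
    have h2 : ((Nat.sqrt (2 * n) : ℕ) : ℝ) ≤ Real.sqrt (((2 * n : ℕ)) : ℝ) := Real.nat_sqrt_le_real_sqrt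
    refine h2.trans ?_
    push_cast
    rw [hsd, ← Real.sqrt_eq_rpow]
    rw [show (2 : ℝ) * Real.sqrt n = Real.sqrt (4 * n) by
      rw [Real.sqrt_mul (by norm_num), show (4 : ℝ) = 2 ^ 2 by norm_num, Real.sqrt_sq (by norm_num)]]
    apply Real.sqrt_le_sqrt
    linarith
  have hB1 : B + 1 ≤ 3 * s := by linarith
  have hB2 : B + 2 ≤ 4 * s := by linarith
  have hy1 : 1 ≤ (n : ℝ) ^ (1 / 2 - ε) := Real.one_le_rpow hn1 (by linarith)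
  have hy : ((⌊(n : ℝ) ^ (1 / 2 - ε)⌋₊ : ℕ) : ℝ) + 1 ≤ 2 * (n : ℝ) ^ (1 / 2 - ε) := by
    have := Nat.floor_le (show (0 : ℝ) ≤ (n : ℝ) ^ (1 / 2 - ε) by positivity)
    linarith
  have hnη : 1 ≤ (n : ℝ) ^ η := Real.one_le_rpow hn1 hη0.le
  have hlog : Real.log (B + 2) ≤ c1 * (n : ℝ) ^ η := by
    have g1 := Real.log_le_rpow_div (show (0 : ℝ) ≤ B + 2 by linarith) (show 0 < 2 * η by positivity)
    have g2 : (B + 2) ^ (2 * η) ≤ (4 * s) ^ (2 * η) :=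
      Real.rpow_le_rpow (by linarith) hB2 (by positivity)
    have g3 : (4 * s) ^ (2 * η) = 4 ^ (2 * η) * (n : ℝ) ^ η := by
      rw [Real.mul_rpow (by norm_num) hs0.le, hsd, ← Real.rpow_mul hn0.le]
      congr 2
      ring
    calc Real.log (B + 2) ≤ (B + 2) ^ (2 * η) / (2 * η) := g1
      _ ≤ (4 * s) ^ (2 * η) / (2 * η) := by gcongr
      _ = c1 * (n : ℝ) ^ η := by rw [g3, hc1]; ring
  have hlog0 : 0 ≤ Real.log (B + 2) := Real.log_nonneg (by linarith)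
  have hlog2 : 2 + Real.log (B + 2) ≤ (2 + c1) * (n : ℝ) ^ η := by nlinarith
  have hpow : (C' * (n : ℝ) ^ (η / 2)) ^ 2 = C' ^ 2 * (n : ℝ) ^ η := by
    rw [mul_pow, ← Real.rpow_natCast, ← Real.rpow_natCast, ← Real.rpow_mul hn0.le]
    norm_num
  calc (T.card : ℝ) ≤ _ := h1
    _ ≤ 8 * (C' * (n : ℝ) ^ (η / 2)) ^ 2 * ((3 * s) * ((2 * (n : ℝ) ^ (1 / 2 - ε)) *
          ((4 * s) * ((2 + c1) * (n : ℝ) ^ η))) / (n : ℝ) ^ (1 / 2 - ε / 2)) := by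
        gcongr
    _ = 8 * C' ^ 2 * (24 * (2 + c1)) * ((n : ℝ) ^ η * ((s * s) * (n : ℝ) ^ (1 / 2 - ε) * (n : ℝ) ^ η) /
          (n : ℝ) ^ (1 / 2 - ε / 2)) := by rw [hpow]; ring
    _ = 8 * C' ^ 2 * (24 * (2 + c1)) * (n : ℝ) ^ (1 - ε / 4) := by
        congr 1
        rw [hss, div_eq_iff hZ.ne', ← Real.rpow_add hn0]
        nth_rewrite 2 [← Real.rpow_one (n : ℝ)]
        rw [← Real.rpow_add hn0, ← Real.rpow_add hn0, ← Real.rpow_add hn0]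
        congr 1
        rw [hη]; ring

/-- the size of the values -/
lemma value_large (n x y z w : ℕ) (h : n = x ^ 2 + y ^ 2 + z ^ 2 + w ^ 2) :
    (n : ℝ) ^ (1 / 2 : ℝ) / 4 ≤ Real.log ((2 ^ (x + y) + 2 ^ (z + w) + 1 : ℕ) : ℝ) := by
  set a := x + y with ha
  set b := z + w with hb
  have h1 : n ≤ (a + b) ^ 2 := by
    rw [h, ha, hb]
    nlinarith [Nat.zero_le (x * y), Nat.zero_le (x * z), Nat.zero_le (x * w), Nat.zero_le (y * z),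
      Nat.zero_le (y * w), Nat.zero_le (z * w)]
  have h2 : (n : ℝ) ^ (1 / 2 : ℝ) ≤ (a : ℝ) + b := by
    rw [← Real.sqrt_eq_rpow, Real.sqrt_le_left (by positivity)]
    exact_mod_cast h1
  have hl : (1 : ℝ) / 2 ≤ Real.log 2 := by
    have := Real.log_two_gt_d9
    linarith
  have h3 : (a : ℝ) * Real.log 2 ≤ Real.log ((2 ^ a + 2 ^ b + 1 : ℕ) : ℝ) := by
    rw [← Real.log_pow]
    apply Real.log_le_log (by positivity)
    push_cast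
    have : (0 : ℝ) ≤ 2 ^ b := by positivity
    linarith
  have h4 : (b : ℝ) * Real.log 2 ≤ Real.log ((2 ^ a + 2 ^ b + 1 : ℕ) : ℝ) := by
    rw [← Real.log_pow]
    apply Real.log_le_log (by positivity)
    push_cast
    have : (0 : ℝ) ≤ 2 ^ a := by positivity
    linarith
  have h5 : ((a : ℝ) + b) * (1 / 2) ≤ ((a : ℝ) + b) * Real.log 2 := by
    apply mul_le_mul_of_nonneg_left hl (by positivity)
  linarith

theorem smooth_main (ε : ℝ) (hε : 0 < ε) (hε2 : ε < 1 / 2) :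
    (∃ C : ℝ, 0 < C ∧ ∀ n : ℕ, 1 ≤ n → ∀ T : Finset (ℕ × ℕ × ℕ × ℕ),
      (∀ x y z w : ℕ, (x, y, z, w) ∈ T → n = x ^ 2 + y ^ 2 + z ^ 2 + w ^ 2 ∧
        ∃ d : ℕ, Odd d ∧ d ∣ 2 ^ (x + y) + 2 ^ (z + w) + 1 ∧
          (∀ p : ℕ, p.Prime → p ∣ d → (p : ℝ) ≤ (n : ℝ) ^ (1 / 2 - ε)) ∧
          (n : ℝ) ^ (1 / 2 - ε / 2) < Real.log d) →
      (T.card : ℝ) ≤ C * (n : ℝ) ^ (1 - ε / 4)) ∧
    ∃ δ : ℝ, 0 < δ ∧ ∃ n₀ : ℕ, ∀ n K : ℕ, n₀ ≤ n → Odd n → 0 < K → (K : ℝ) ≤ (n : ℝ) ^ δ →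
      ∃ S : Finset (ℕ × ℕ × ℕ × ℕ), (n : ℝ) ^ (1 - ε / 8) / 2 ≤ (S.card : ℝ) ∧
        ∀ x y z w : ℕ, (x, y, z, w) ∈ S → n = x ^ 2 + y ^ 2 + z ^ 2 + w ^ 2 ∧
          Nat.Coprime (2 ^ (x + y) + 2 ^ (z + w) + 1) (2 * (2 ^ K - 1)) ∧
          (∀ d : ℕ, d ∣ 2 ^ (x + y) + 2 ^ (z + w) + 1 →
            (∀ p : ℕ, p.Prime → p ∣ d → (p : ℝ) ≤ (n : ℝ) ^ (1 / 2 - ε)) →
            Real.log d ≤ (n : ℝ) ^ (1 / 2 - ε / 2)) ∧
          ∃ p : ℕ, p.Prime ∧ p ∣ 2 ^ (x + y) + 2 ^ (z + w) + 1 ∧ (n : ℝ) ^ (1 / 2 - ε) < p := by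
  classical
  obtain ⟨C, hC, hexc⟩ := exceptions ε hε hε2
  have hpart : ∀ n : ℕ, 1 ≤ n → ∀ T : Finset (ℕ × ℕ × ℕ × ℕ),
      (∀ x y z w : ℕ, (x, y, z, w) ∈ T → n = x ^ 2 + y ^ 2 + z ^ 2 + w ^ 2 ∧
        ∃ d : ℕ, Odd d ∧ d ∣ 2 ^ (x + y) + 2 ^ (z + w) + 1 ∧
          (∀ p : ℕ, p.Prime → p ∣ d → (p : ℝ) ≤ (n : ℝ) ^ (1 / 2 - ε)) ∧
          (n : ℝ) ^ (1 / 2 - ε / 2) < Real.log d) →
      (T.card : ℝ) ≤ C * (n : ℝ) ^ (1 - ε / 4) := by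
    intro n hn T hT
    apply hexc n hn T
    intro x y z w ht
    obtain ⟨g1, d, hd, hdN, hp, hZ⟩ := hT x y z w ht
    refine ⟨g1, lt_of_lt_of_le hZ ?_⟩
    apply log_le_smoothLog _ _ _ (by positivity) hd hdN
    intro p hpp hpd
    exact Nat.le_floor (hp p hpp hpd)
  refine ⟨⟨C, hC, hpart⟩, ?_⟩
  obtain ⟨δ, hδ, n1, h1⟩ := Pool.Agent.TH696.FA.main_count (ε / 8) (by positivity)
  obtain ⟨n2, hn2⟩ := Pool.Agent.TH696.FA.large_rp (2 * C) (ε / 8) (by positivity)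
  obtain ⟨n3, hn3⟩ := Pool.Agent.TH696.FA.large_rp 5 (ε / 2) (by positivity)
  refine ⟨δ, hδ, n1 + n2 + n3, ?_⟩
  intro n K hn hno hK hKn
  have hn' : 1 ≤ n := hno.pos
  have hn1 : (1 : ℝ) ≤ n := by exact_mod_cast hn'
  have hn0 : (0 : ℝ) < n := by linarith
  obtain ⟨S0, hS0, hS0'⟩ := h1 n K (by omega) hno hK hKn
  set E := S0.filter (fun t => ∃ d : ℕ, Odd d ∧ d ∣ 2 ^ (t.1 + t.2.1) + 2 ^ (t.2.2.1 + t.2.2.2) + 1 ∧
          (∀ p : ℕ, p.Prime → p ∣ d → (p : ℝ) ≤ (n : ℝ) ^ (1 / 2 - ε)) ∧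
          (n : ℝ) ^ (1 / 2 - ε / 2) < Real.log d) with hE
  have c1 : (E.card : ℝ) ≤ C * (n : ℝ) ^ (1 - ε / 4) := by
    apply hpart n hn' E
    intro x y z w ht
    rw [hE, mem_filter] at ht
    exact ⟨(hS0' x y z w ht.1).1, ht.2⟩
  have hsm : ∀ x y z w : ℕ, (x, y, z, w) ∈ S0 \ E → ∀ d : ℕ, d ∣ 2 ^ (x + y) + 2 ^ (z + w) + 1 →
      (∀ p : ℕ, p.Prime → p ∣ d → (p : ℝ) ≤ (n : ℝ) ^ (1 / 2 - ε)) →
      Real.log d ≤ (n : ℝ) ^ (1 / 2 - ε / 2) := by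
    intro x y z w ht d hd hp
    rw [mem_sdiff] at ht
    obtain ⟨ht0, htE⟩ := ht
    obtain ⟨g1, g2⟩ := hS0' x y z w ht0
    by_contra hcon
    rw [not_le] at hcon
    apply htE
    rw [hE, mem_filter]
    refine ⟨ht0, d, ?_, hd, hp, hcon⟩
    by_contra hodd
    rw [Nat.not_odd_iff_even] at hodd
    have h2d : 2 ∣ d := even_iff_two_dvd.1 hodd
    have := Nat.dvd_gcd (h2d.trans hd) (Dvd.intro _ rfl : 2 ∣ 2 * (2 ^ K - 1))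
    rw [Nat.Coprime] at g2
    rw [g2] at this
    omega
  refine ⟨S0 \ E, ?_, ?_⟩
  · have c5 : (S0.card : ℝ) ≤ ((S0 \ E).card : ℝ) + E.card := by
      have g1 : S0 ⊆ (S0 \ E) ∪ E := by
        intro t ht
        by_cases h : t ∈ E
        · exact mem_union_right _ h
        · exact mem_union_left _ (mem_sdiff.2 ⟨ht, h⟩)
      have g2 := (Finset.card_le_card g1).trans (Finset.card_union_le _ _)
      exact_mod_cast g2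
    have e3 : (n : ℝ) ^ (1 - ε / 8) = (n : ℝ) ^ (ε / 8) * (n : ℝ) ^ (1 - ε / 4) := by
      rw [← Real.rpow_add hn0]; congr 1; ring
    have e4 := hn2 n (by omega)
    have hX : 0 < (n : ℝ) ^ (1 - ε / 4) := Real.rpow_pos_of_pos hn0 _
    have e7 : (2 * C) * (n : ℝ) ^ (1 - ε / 4) ≤ (n : ℝ) ^ (ε / 8) * (n : ℝ) ^ (1 - ε / 4) := by
      gcongr
    linarith
  · intro x y z w ht
    have ht0 := (mem_sdiff.1 ht).1
    obtain ⟨g1, g2⟩ := hS0' x y z w ht0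
    refine ⟨g1, g2, hsm x y z w ht, ?_⟩
    by_contra hcon
    push Not at hcon
    have k1 := hsm x y z w ht _ dvd_rfl (fun p hp hpd => hcon p hp hpd)
    have k2 := value_large n x y z w g1
    have k3 := hn3 n (by omega)
    have k4 : (n : ℝ) ^ (1 / 2 : ℝ) = (n : ℝ) ^ (ε / 2) * (n : ℝ) ^ (1 / 2 - ε / 2) := by
      rw [← Real.rpow_add hn0]; congr 1; ring
    have k5 : 0 < (n : ℝ) ^ (1 / 2 - ε / 2) := Real.rpow_pos_of_pos hn0 _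
    nlinarith

end Pool.Agent.Q249.CN
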